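import Pool.Agent.X143.HC.Fin

/-!
# No common hypercyclic vector for `{aT + bI : a > 0, b ∈ ℝ}` on a real space

Let `X` be a nontrivial real locally convex Hausdorff space (for instance a real Fréchet space),
`T ∈ L(X)` and `x ∈ X`.  The set of the `(a, b)` with `a > 0` such that `x` is a hypercyclic vector
for `aT + bI` is Lebesgue null.  In particular the family `{aT + bI : a > 0, b ∈ ℝ}` has no common
hypercyclic vector, which answers Q1 in the negative.

Idea: for a continuous functional `f ≠ 0` the functions `P_n(t) = f((T+tI)^n x)` form an Appell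
sequence of real polynomials.  If `(s(T+tI))^n x` is close to a vector `y` with `f(y) = 1`,
`f(Sy) = 0`, `f(S²y) = 1`, `f(S³y) = 0` (`S = T + tI`), then `t` is a Fourier critical point of
level `n` of the Appell sequence `F_n = P_n - ν/(n+1) P_{n+1}` with `ν = (n+2)P_{n+1}(t)/P_{n+2}(t)`.
For a fixed `ν` each such critical point costs two non-real zeros, so that at most `(N+1)/2` of
them occur at levels up to `N`; integrating over `ν` bounds the measure of the set of the `t` which
are good at many levels, and a dyadic argument concludes.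
-/

namespace Pool.Agent.Results.MP_e13f12_an.NoCommonVector

open MeasureTheory Pool.Agent.X143.HC

theorem result {X : Type*} [AddCommGroup X] [Module ℝ X] [TopologicalSpace X]
    [IsTopologicalAddGroup X] [ContinuousSMul ℝ X] [LocallyConvexSpace ℝ X] [T1Space X]
    [Nontrivial X] (T : X →L[ℝ] X) :
    (¬ ∃ x : X, ∀ a b : ℝ, 0 < a →
      IsHypercyclicVector (a • T + b • (1 : X →L[ℝ] X)) x) ∧
    (∀ x : X, volume {q : ℝ × ℝ | 0 < q.1 ∧
      IsHypercyclicVector (q.1 • T + q.2 • (1 : X →L[ℝ] X)) x} = 0) := by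
  have h2 : ∀ x : X, volume {q : ℝ × ℝ | 0 < q.1 ∧
      IsHypercyclicVector (q.1 • T + q.2 • (1 : X →L[ℝ] X)) x} = 0 := fun x => null_affine T x
  refine ⟨?_, h2⟩
  rintro ⟨x, hx⟩
  have h := h2 x
  have hsub : (Set.Ioo (0 : ℝ) 1) ×ˢ (Set.Ioo (0 : ℝ) 1) ⊆ {q : ℝ × ℝ | 0 < q.1 ∧
      IsHypercyclicVector (q.1 • T + q.2 • (1 : X →L[ℝ] X)) x} := by
    rintro ⟨a, b⟩ ⟨ha, -⟩
    exact ⟨ha.1, hx a b ha.1⟩
  have h3 := measure_mono_null hsub h
  rw [Measure.volume_eq_prod, Measure.prod_prod, Real.volume_Ioo] at h3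
  simp at h3

end Pool.Agent.Results.MP_e13f12_an.NoCommonVector
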